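import Mathlib
import Pool.Agent.R655.FreeFactorHom

/-!
# The intersection of an echelon subgroup with a subgroup need not be echelon in that subgroup

`F = F(x, y, z)`, `G` the subgroup of index two of words with an even number of letters `x^{±1}`,
`H = ⟨x, C⟩` with `C = [y, z][y, z'][y', z]`, `y' = x y x⁻¹`, `z' = x z x⁻¹`.
-/

set_option autoImplicit false

namespace Pool.Agent.Results.MP_3ccc78_al.EchelonMeet

/-- The rank of a subgroup `H` of a free group: the cardinality of a free basis of `H`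
(`H` is free by the Nielsen-Schreier theorem). -/
noncomputable def rk {F : Type} [Group F] [IsFreeGroup F] (H : Subgroup F) : Cardinal :=
  Cardinal.mk (IsFreeGroup.Generators H)

/-- `F_i = ⟨x_1, …, x_i⟩` for the ordered basis `x_1, …, x_n` of `F` given by `b`
(so `x_{j+1} = b j`). -/
def initial {F : Type} [Group F] {n : ℕ} (b : FreeGroupBasis (Fin n) F) (i : ℕ) : Subgroup F :=
  Subgroup.closure {g | ∃ j : Fin n, (j : ℕ) < i ∧ b j = g}

/-- `H` is in echelon form with respect to the ordered basis `b`: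
`rk (H ∩ F_i) - rk (H ∩ F_{i-1}) ≤ 1` for `i = 1, …, n`. -/
def EchelonForm {F : Type} [Group F] [IsFreeGroup F] {n : ℕ} (b : FreeGroupBasis (Fin n) F)
    (H : Subgroup F) : Prop :=
  ∀ i : ℕ, 1 ≤ i → i ≤ n → rk (H ⊓ initial b i) ≤ rk (H ⊓ initial b (i - 1)) + 1

/-- `H` is an echelon subgroup of the free group `F` (of finite rank). -/
def IsEchelon {F : Type} [Group F] [IsFreeGroup F] (H : Subgroup F) : Prop :=
  ∃ (n : ℕ) (b : FreeGroupBasis (Fin n) F), EchelonForm b H

/-! ### Ranks -/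

lemma card_pi_le {α β : Type} [Finite α]
    (f : (β → Multiplicative (ZMod 2)) → (α → Multiplicative (ZMod 2)))
    (hf : Function.Injective f) : Finite β ∧ Nat.card β ≤ Nat.card α := by
  classical
  have : Finite (β → Multiplicative (ZMod 2)) := Finite.of_injective f hf
  have hfin : Finite β := by
    let g : β → (β → Multiplicative (ZMod 2)) :=
      fun b c => if c = b then Multiplicative.ofAdd 1 else 1
    apply Finite.of_injective g
    intro b c hbc
    by_contra hne
    have h1 := congrFun hbc b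
    simp only [g, if_true, if_neg hne] at h1
    exact absurd h1 (by decide)
  refine ⟨hfin, ?_⟩
  have h2 := Nat.card_le_card_of_injective f hf
  have := Fintype.ofFinite α
  have := Fintype.ofFinite β
  rw [Nat.card_pi, Nat.card_pi] at h2
  have h3 : Nat.card (Multiplicative (ZMod 2)) = 2 := by
    rw [Nat.card_eq_fintype_card]; rfl
  simp only [h3, Finset.prod_const, Finset.card_univ] at h2
  rw [Nat.card_eq_fintype_card, Nat.card_eq_fintype_card]
  exact (Nat.pow_le_pow_iff_right (by norm_num)).1 h2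

lemma rk_le_of_surj {F : Type} [Group F] [IsFreeGroup F] (H : Subgroup F) (k : ℕ)
    (f : FreeGroup (Fin k) →* H) (hf : Function.Surjective f) : rk H ≤ k := by
  have h := card_pi_le (α := Fin k) (β := IsFreeGroup.Generators H)
    (fun c => FreeGroup.lift.symm ((IsFreeGroup.lift c).comp f)) (by
      intro c d hcd
      have h1 : (IsFreeGroup.lift c).comp f = (IsFreeGroup.lift d).comp f :=
        FreeGroup.lift.symm.injective hcd
      have h2 : IsFreeGroup.lift c = IsFreeGroup.lift d := by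
        ext z
        obtain ⟨w, rfl⟩ := hf z
        exact DFunLike.congr_fun h1 w
      exact IsFreeGroup.lift.injective h2)
  obtain ⟨h1, h2⟩ := h
  unfold rk
  rw [← Nat.cast_card]
  simp only [Nat.card_eq_fintype_card, Fintype.card_fin] at h2
  exact_mod_cast h2

/-- A subgroup generated by `k` elements has rank at most `k`. -/
lemma rk_closure_le {F : Type} [Group F] [IsFreeGroup F] (k : ℕ) (g : Fin k → F) :
    rk (Subgroup.closure (Set.range g)) ≤ k := by
  let f : FreeGroup (Fin k) →* Subgroup.closure (Set.range g) :=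
    FreeGroup.lift (fun i => ⟨g i, Subgroup.subset_closure ⟨i, rfl⟩⟩)
  apply rk_le_of_surj _ k f
  have h1 : (Subgroup.closure (Set.range g)).subtype.comp f = FreeGroup.lift g := by
    ext i
    simp [f]
  rintro ⟨z, hz⟩
  have h2 : z ∈ (FreeGroup.lift g).range := by
    rw [FreeGroup.range_lift_eq_closure]; exact hz
  obtain ⟨w, hw⟩ := h2
  refine ⟨w, ?_⟩
  apply Subtype.ext
  change ((Subgroup.closure (Set.range g)).subtype.comp f) w = z
  rw [h1, hw]

lemma rk_ne_zero {F : Type} [Group F] [IsFreeGroup F] {H : Subgroup F} {g : F} (hg : g ∈ H)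
    (hg1 : g ≠ 1) : 1 ≤ rk H := by
  unfold rk
  rw [Cardinal.one_le_iff_ne_zero, Cardinal.mk_ne_zero_iff]
  by_contra hne
  rw [not_nonempty_iff] at hne
  have h1 : (IsFreeGroup.toFreeGroup H ⟨g, hg⟩) = 1 := Subsingleton.elim _ _
  have h2 : (⟨g, hg⟩ : H) = 1 := by
    apply (IsFreeGroup.toFreeGroup H).injective
    rw [h1, map_one]
  exact hg1 (congrArg Subtype.val h2)

/-- A subgroup with three independent homomorphisms onto `ℤ/2` has rank at least three. -/
lemma not_rk_le_two {F : Type} [Group F] [IsFreeGroup F] {H : Subgroup F}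
    (f : (Fin 3 → Multiplicative (ZMod 2)) → (H →* Multiplicative (ZMod 2)))
    (hf : Function.Injective f) : ¬ rk H ≤ 2 := by
  intro hle
  unfold rk at hle
  have hfin : Finite (IsFreeGroup.Generators H) := by
    rw [← Cardinal.lt_aleph0_iff_finite]
    exact lt_of_le_of_lt hle (by exact_mod_cast Cardinal.natCast_lt_aleph0 (n := 2))
  have h := card_pi_le (α := IsFreeGroup.Generators H) (β := Fin 3)
    (fun c => IsFreeGroup.lift.symm (f c)) (by
      intro c d hcd
      exact hf (IsFreeGroup.lift.symm.injective hcd))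
  have h2 := h.2
  rw [← Nat.cast_card] at hle
  have h3 : Nat.card (IsFreeGroup.Generators H) ≤ 2 := by exact_mod_cast hle
  simp only [Nat.card_eq_fintype_card, Fintype.card_fin] at h2
  omega

lemma exists_two {F : Type} [Group F] [IsFreeGroup F] {P : Subgroup F} (h : ¬ rk P ≤ 1) :
    ∃ (g₁ g₂ : P) (φ₁ φ₂ : P →* Multiplicative ℤ), φ₁ g₁ = Multiplicative.ofAdd 1 ∧ φ₁ g₂ = 1 ∧
      φ₂ g₁ = 1 ∧ φ₂ g₂ = Multiplicative.ofAdd 1 := by
  classical
  unfold rk at h
  rw [Cardinal.le_one_iff_subsingleton, not_subsingleton_iff_nontrivial] at h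
  obtain ⟨a, b, hab⟩ := h
  refine ⟨IsFreeGroup.of a, IsFreeGroup.of b,
    IsFreeGroup.lift (Pi.mulSingle a (Multiplicative.ofAdd 1)),
    IsFreeGroup.lift (Pi.mulSingle b (Multiplicative.ofAdd 1)), ?_, ?_, ?_, ?_⟩
  · simp
  · simp [hab.symm]
  · simp [hab]
  · simp

lemma exists_one {F : Type} [Group F] [IsFreeGroup F] {P : Subgroup F} (h : ¬ rk P ≤ 0) :
    ∃ (g : P) (φ : P →* Multiplicative ℤ), φ g = Multiplicative.ofAdd 1 := by
  classical
  unfold rk at h
  rw [nonpos_iff_eq_zero, Cardinal.mk_eq_zero_iff, not_isEmpty_iff] at h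
  obtain ⟨a⟩ := h
  refine ⟨IsFreeGroup.of a, IsFreeGroup.lift (Pi.mulSingle a (Multiplicative.ofAdd 1)), ?_⟩
  simp

lemma initial_top {F : Type} [Group F] {n : ℕ} (b : FreeGroupBasis (Fin n) F) :
    initial b n = ⊤ := by
  rw [eq_top_iff]
  have h1 : (⊤ : Subgroup F) =
      Subgroup.map (b.repr.symm : FreeGroup (Fin n) →* F) ⊤ := by
    rw [← MonoidHom.range_eq_map, eq_comm, MonoidHom.range_eq_top]
    exact b.repr.symm.surjective
  rw [h1, ← FreeGroup.closure_range_of, MonoidHom.map_closure, Subgroup.closure_le]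
  rintro _ ⟨_, ⟨j, rfl⟩, rfl⟩
  exact Subgroup.subset_closure ⟨j, j.2, rfl⟩

lemma initial_eq_part {F : Type} [Group F] {n : ℕ} (b : FreeGroupBasis (Fin n) F) (i : ℕ) :
    initial b i = Pool.Agent.R655.part b {j : Fin n | (j : ℕ) < i} := rfl

/-! ### Two explicit groups -/

/-- a nilpotent group of class two -/
@[ext] structure N where
  /-- coordinate -/
  a : ℤ
  /-- coordinate -/
  c : ℤ
  /-- coordinate -/
  d : ℤ
  /-- coordinate -/
  t : ℤ
  /-- coordinate -/
  p : ℤ
  /-- coordinate -/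
  q : ℤ

namespace N

instance : Mul N := ⟨fun u v => ⟨u.a + v.a, u.c + v.c, u.d + v.d, u.t + v.t,
  u.p + v.p + u.a * v.c, u.q + v.q + u.a * v.d⟩⟩
instance : One N := ⟨⟨0, 0, 0, 0, 0, 0⟩⟩
instance : Inv N := ⟨fun u => ⟨-u.a, -u.c, -u.d, -u.t, -u.p + u.a * u.c, -u.q + u.a * u.d⟩⟩

@[simp] lemma mul_a (u v : N) : (u * v).a = u.a + v.a := rfl
@[simp] lemma mul_c (u v : N) : (u * v).c = u.c + v.c := rfl
@[simp] lemma mul_d (u v : N) : (u * v).d = u.d + v.d := rfl
@[simp] lemma mul_t (u v : N) : (u * v).t = u.t + v.t := rfl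
@[simp] lemma mul_p (u v : N) : (u * v).p = u.p + v.p + u.a * v.c := rfl
@[simp] lemma mul_q (u v : N) : (u * v).q = u.q + v.q + u.a * v.d := rfl
@[simp] lemma one_a : (1 : N).a = 0 := rfl
@[simp] lemma one_c : (1 : N).c = 0 := rfl
@[simp] lemma one_d : (1 : N).d = 0 := rfl
@[simp] lemma one_t : (1 : N).t = 0 := rfl
@[simp] lemma one_p : (1 : N).p = 0 := rfl
@[simp] lemma one_q : (1 : N).q = 0 := rfl
@[simp] lemma inv_a (u : N) : (u⁻¹).a = -u.a := rfl
@[simp] lemma inv_c (u : N) : (u⁻¹).c = -u.c := rfl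
@[simp] lemma inv_d (u : N) : (u⁻¹).d = -u.d := rfl
@[simp] lemma inv_t (u : N) : (u⁻¹).t = -u.t := rfl
@[simp] lemma inv_p (u : N) : (u⁻¹).p = -u.p + u.a * u.c := rfl
@[simp] lemma inv_q (u : N) : (u⁻¹).q = -u.q + u.a * u.d := rfl

instance : Group N := Group.ofLeftAxioms
  (fun u v w => by ext <;> simp <;> ring)
  (fun u => by ext <;> simp)
  (fun u => by ext <;> simp)

end N

/-- the wreath product of `N` with the group of order two -/
@[ext] structure WN where
  /-- parity -/
  s : Bool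
  /-- first coordinate -/
  m : N
  /-- second coordinate -/
  n : N

namespace WN

instance : Mul WN := ⟨fun u v => ⟨xor u.s v.s, u.m * (if u.s then v.n else v.m),
  u.n * (if u.s then v.m else v.n)⟩⟩
instance : One WN := ⟨⟨false, 1, 1⟩⟩
instance : Inv WN := ⟨fun u => ⟨u.s, if u.s then u.n⁻¹ else u.m⁻¹, if u.s then u.m⁻¹ else u.n⁻¹⟩⟩

@[simp] lemma mul_s (u v : WN) : (u * v).s = xor u.s v.s := rfl
@[simp] lemma mul_m (u v : WN) : (u * v).m = u.m * (if u.s then v.n else v.m) := rfl
@[simp] lemma mul_n (u v : WN) : (u * v).n = u.n * (if u.s then v.m else v.n) := rfl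
@[simp] lemma one_s : (1 : WN).s = false := rfl
@[simp] lemma one_m : (1 : WN).m = 1 := rfl
@[simp] lemma one_n : (1 : WN).n = 1 := rfl
@[simp] lemma inv_s (u : WN) : (u⁻¹).s = u.s := rfl
@[simp] lemma inv_m (u : WN) : (u⁻¹).m = if u.s then u.n⁻¹ else u.m⁻¹ := rfl
@[simp] lemma inv_n (u : WN) : (u⁻¹).n = if u.s then u.m⁻¹ else u.n⁻¹ := rfl

instance : Group WN := Group.ofLeftAxioms
  (fun u v w => by
    apply WN.ext
    · simp
    · cases hu : u.s <;> cases hv : v.s <;> simp [hu, hv, mul_assoc]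
    · cases hu : u.s <;> cases hv : v.s <;> simp [hu, hv, mul_assoc])
  (fun u => by apply WN.ext <;> simp)
  (fun u => by
    apply WN.ext
    · simp
    · cases hu : u.s <;> simp [hu]
    · cases hu : u.s <;> simp [hu])

end WN

/-- a Heisenberg type group -/
@[ext] structure HG where
  /-- the functional -/
  a : ℤ
  /-- the vector -/
  v : Fin 4 → ℤ
  /-- the center -/
  d : Fin 4 → ℤ

namespace HG

instance : Mul HG := ⟨fun u w => ⟨u.a + w.a, u.v + w.v, u.d + w.d + u.a • w.v⟩⟩
instance : One HG := ⟨⟨0, 0, 0⟩⟩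
instance : Inv HG := ⟨fun u => ⟨-u.a, -u.v, -u.d + u.a • u.v⟩⟩

@[simp] lemma mul_a (u v : HG) : (u * v).a = u.a + v.a := rfl
@[simp] lemma mul_v (u v : HG) : (u * v).v = u.v + v.v := rfl
@[simp] lemma mul_d (u v : HG) : (u * v).d = u.d + v.d + u.a • v.v := rfl
@[simp] lemma one_a : (1 : HG).a = 0 := rfl
@[simp] lemma one_v : (1 : HG).v = 0 := rfl
@[simp] lemma one_d : (1 : HG).d = 0 := rfl
@[simp] lemma inv_a (u : HG) : (u⁻¹).a = -u.a := rfl
@[simp] lemma inv_v (u : HG) : (u⁻¹).v = -u.v := rfl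
@[simp] lemma inv_d (u : HG) : (u⁻¹).d = -u.d + u.a • u.v := rfl

instance : Group HG := Group.ofLeftAxioms
  (fun u v w => by ext <;> simp <;> ring)
  (fun u => by ext <;> simp)
  (fun u => by ext <;> simp)

/-- first coordinate as a homomorphism -/
def aHom : HG →* Multiplicative ℤ where
  toFun u := Multiplicative.ofAdd u.a
  map_one' := rfl
  map_mul' _ _ := rfl

/-- second coordinate as a homomorphism -/
def vHom : HG →* Multiplicative (Fin 4 → ℤ) where
  toFun u := Multiplicative.ofAdd u.v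
  map_one' := rfl
  map_mul' _ _ := rfl

lemma comm_eq (u w : HG) : u * w * u⁻¹ * w⁻¹ = ⟨0, 0, u.a • w.v - w.a • u.v⟩ := by
  ext <;> simp <;> ring

end HG

/-! ### The example -/

/-- The free group of rank three. -/
abbrev F3 := FreeGroup (Fin 3)

/-- `x`. -/
def x : F3 := FreeGroup.of 0
/-- `y`. -/
def y : F3 := FreeGroup.of 1
/-- `z`. -/
def z : F3 := FreeGroup.of 2

/-- commutator -/
def cm {Q : Type} [Group Q] (u v : Q) : Q := u * v * u⁻¹ * v⁻¹

/-- the explicit representation -/
def tau : F3 →* WN := FreeGroup.lift ![⟨true, ⟨0, 0, 0, 1, 0, 0⟩, 1⟩,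
  ⟨false, ⟨1, 0, 0, 0, 0, 0⟩, 1⟩, ⟨false, ⟨0, 1, 0, 0, 0, 0⟩, ⟨0, 0, 1, 0, 0, 0⟩⟩]

lemma tau_x : tau x = ⟨true, ⟨0, 0, 0, 1, 0, 0⟩, 1⟩ := by simp [tau, x]
lemma tau_y : tau y = ⟨false, ⟨1, 0, 0, 0, 0, 0⟩, 1⟩ := by simp [tau, y]
lemma tau_z : tau z = ⟨false, ⟨0, 1, 0, 0, 0, 0⟩, ⟨0, 0, 1, 0, 0, 0⟩⟩ := by simp [tau, z]

/-- the subgroup of index two of words with an even number of letters `x^{±1}` -/
def G : Subgroup F3 where
  carrier := {g | (tau g).s = false}
  one_mem' := by simp
  mul_mem' := by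
    intro u v hu hv
    simp only [Set.mem_ofPred_eq] at hu hv ⊢
    simp [hu, hv]
  inv_mem' := by
    intro u hu
    simp only [Set.mem_ofPred_eq] at hu ⊢
    simp [hu]

lemma mem_G {g : F3} : g ∈ G ↔ (tau g).s = false := Iff.rfl

/-- `x²` -/
def X : G := ⟨x * x, by rw [mem_G]; simp [tau_x]⟩
/-- `y` -/
def Y : G := ⟨y, by rw [mem_G]; simp [tau_y]⟩
/-- `z` -/
def Z : G := ⟨z, by rw [mem_G]; simp [tau_z]⟩
/-- `x y x⁻¹` -/
def Y' : G := ⟨x * y * x⁻¹, by rw [mem_G]; simp [tau_x, tau_y]⟩
/-- `x z x⁻¹` -/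
def Z' : G := ⟨x * z * x⁻¹, by rw [mem_G]; simp [tau_x, tau_z]⟩

/-- `C = [y, z][y, z'][y', z]` -/
def C : G := cm Y Z * cm Y Z' * cm Y' Z
/-- `x C x⁻¹` -/
def C' : G := cm Y' Z' * cm Y' (X * Z * X⁻¹) * cm (X * Y * X⁻¹) Z'

lemma C'_eq : (C' : F3) = x * C * x⁻¹ := by
  simp only [C', C, cm, Subgroup.coe_mul, Subgroup.coe_inv, X, Y, Z, Y', Z']
  group

/-- `H = ⟨x, C⟩` -/
def H : Subgroup F3 := Subgroup.closure (Set.range ![x, (C : F3)])

/-! #### Index two bookkeeping -/

lemma half (S : Set F3) {g : F3} (hg : g ∈ Subgroup.closure (insert x S)) :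
    g ∈ Subgroup.closure ({x * x} ∪ S ∪ (fun s => x * s * x⁻¹) '' S) ∨
    x⁻¹ * g ∈ Subgroup.closure ({x * x} ∪ S ∪ (fun s => x * s * x⁻¹) '' S) := by
  set L := Subgroup.closure ({x * x} ∪ S ∪ (fun s => x * s * x⁻¹) '' S) with hL
  have hx2 : x * x ∈ L := Subgroup.subset_closure (Or.inl (Or.inl rfl))
  have hS : ∀ s ∈ S, s ∈ L := fun s hs => Subgroup.subset_closure (Or.inl (Or.inr hs))
  have hS' : ∀ s ∈ S, x⁻¹ * s * x ∈ L := by
    intro s hs
    have h1 : x * s * x⁻¹ ∈ L := Subgroup.subset_closure (Or.inr ⟨s, hs, rfl⟩)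
    have h2 : x⁻¹ * s * x = (x * x)⁻¹ * (x * s * x⁻¹) * (x * x) := by group
    rw [h2]
    exact L.mul_mem (L.mul_mem (L.inv_mem hx2) h1) hx2
  induction hg using Subgroup.closure_induction_left with
  | one => exact Or.inl L.one_mem
  | mul_left u hu v hv ih =>
    rcases hu with rfl | hu
    · rcases ih with h | h
      · right
        rw [inv_mul_cancel_left]; exact h
      · left
        have : x * v = (x * x) * (x⁻¹ * v) := by group
        rw [this]; exact L.mul_mem hx2 h
    · rcases ih with h | h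
      · left; exact L.mul_mem (hS u hu) h
      · right
        have : x⁻¹ * (u * v) = (x⁻¹ * u * x) * (x⁻¹ * v) := by group
        rw [this]; exact L.mul_mem (hS' u hu) h
  | inv_mul_cancel u hu v hv ih =>
    rcases hu with rfl | hu
    · rcases ih with h | h
      · right
        have : x⁻¹ * (x⁻¹ * v) = (x * x)⁻¹ * v := by group
        rw [this]; exact L.mul_mem (L.inv_mem hx2) h
      · left; exact h
    · rcases ih with h | h
      · left; exact L.mul_mem (L.inv_mem (hS u hu)) h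
      · right
        have : x⁻¹ * (u⁻¹ * v) = (x⁻¹ * u * x)⁻¹ * (x⁻¹ * v) := by group
        rw [this]; exact L.mul_mem (L.inv_mem (hS' u hu)) h

lemma half_mem (S : Set F3) (hS : ∀ s ∈ S, s ∈ G) {g : F3}
    (hg : g ∈ Subgroup.closure (insert x S)) (hgG : g ∈ G) :
    g ∈ Subgroup.closure ({x * x} ∪ S ∪ (fun s => x * s * x⁻¹) '' S) := by
  rcases half S hg with h | h
  · exact h
  · exfalso
    have hL : Subgroup.closure ({x * x} ∪ S ∪ (fun s => x * s * x⁻¹) '' S) ≤ G := by
      rw [Subgroup.closure_le]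
      rintro _ ((rfl | hs) | ⟨s, hs, rfl⟩)
      · exact X.2
      · exact hS _ hs
      · have h1 := mem_G.1 (hS s hs)
        change (tau (x * s * x⁻¹)).s = false
        simp [tau_x, h1]
    have h1 := mem_G.1 (hL h)
    have h2 := mem_G.1 hgG
    simp [tau_x, h2] at h1

/-- generators of `G` -/
def gensG : Set G := {X, Y, Z, Y', Z'}
/-- generators of `K` -/
def gensK : Set G := {X, C, C'}

lemma closure_gensG : Subgroup.closure gensG = ⊤ := by
  rw [eq_top_iff]
  intro g _
  have h0 : (g : F3) ∈ Subgroup.closure (insert x ({y, z} : Set F3)) := by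
    have : (⊤ : Subgroup F3) ≤ Subgroup.closure (insert x ({y, z} : Set F3)) := by
      rw [← FreeGroup.closure_range_of, Subgroup.closure_le]
      rintro _ ⟨j, rfl⟩
      apply Subgroup.subset_closure
      fin_cases j
      · exact Or.inl rfl
      · exact Or.inr (Or.inl rfl)
      · exact Or.inr (Or.inr rfl)
    exact this (Subgroup.mem_top _)
  have h1 := half_mem ({y, z} : Set F3) (by
    rintro s (rfl | rfl)
    · exact Y.2
    · exact Z.2) h0 g.2
  have h2 : Subgroup.closure ({x * x} ∪ ({y, z} : Set F3) ∪ (fun s => x * s * x⁻¹) '' {y, z}) ≤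
      Subgroup.map G.subtype (Subgroup.closure gensG) := by
    rw [MonoidHom.map_closure, Subgroup.closure_le]
    rintro _ ((rfl | (rfl | rfl)) | ⟨s, (rfl | rfl), rfl⟩)
    · exact Subgroup.subset_closure ⟨X, by simp [gensG], rfl⟩
    · exact Subgroup.subset_closure ⟨Y, by simp [gensG], rfl⟩
    · exact Subgroup.subset_closure ⟨Z, by simp [gensG], rfl⟩
    · exact Subgroup.subset_closure ⟨Y', by simp [gensG], rfl⟩
    · exact Subgroup.subset_closure ⟨Z', by simp [gensG], rfl⟩
  obtain ⟨g', hg', hgg⟩ := h2 h1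
  have : g' = g := Subtype.ext hgg
  rw [← this]
  exact hg'

lemma K_eq : H.subgroupOf G = Subgroup.closure gensK := by
  apply le_antisymm
  · intro g hg
    rw [Subgroup.mem_subgroupOf] at hg
    have h0 : (g : F3) ∈ Subgroup.closure (insert x ({(C : F3)} : Set F3)) := by
      have : H ≤ Subgroup.closure (insert x ({(C : F3)} : Set F3)) := by
        unfold H
        rw [Subgroup.closure_le]
        rintro _ ⟨j, rfl⟩
        apply Subgroup.subset_closure
        fin_cases j
        · exact Or.inl rfl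
        · exact Or.inr rfl
      exact this hg
    have h1 := half_mem ({(C : F3)} : Set F3) (by
      rintro s rfl
      exact C.2) h0 g.2
    have h2 : Subgroup.closure ({x * x} ∪ ({(C : F3)} : Set F3) ∪
        (fun s => x * s * x⁻¹) '' {(C : F3)}) ≤
        Subgroup.map G.subtype (Subgroup.closure gensK) := by
      rw [MonoidHom.map_closure, Subgroup.closure_le]
      rintro _ ((rfl | rfl) | ⟨s, rfl, rfl⟩)
      · exact Subgroup.subset_closure ⟨X, by simp [gensK], rfl⟩
      · exact Subgroup.subset_closure ⟨C, by simp [gensK], rfl⟩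
      · exact Subgroup.subset_closure ⟨C', by simp [gensK], C'_eq⟩
    obtain ⟨g', hg', hgg⟩ := h2 h1
    have : g' = g := Subtype.ext hgg
    rw [← this]
    exact hg'
  · rw [Subgroup.closure_le]
    have hx : x ∈ H := Subgroup.subset_closure ⟨0, rfl⟩
    have hC : (C : F3) ∈ H := Subgroup.subset_closure ⟨1, rfl⟩
    rintro g hg
    change g ∈ H.subgroupOf G
    rw [Subgroup.mem_subgroupOf]
    simp only [gensK, Set.mem_insert_iff, Set.mem_singleton_iff] at hg
    rcases hg with rfl | rfl | rfl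
    · exact H.mul_mem hx hx
    · exact hC
    · rw [C'_eq]
      exact H.mul_mem (H.mul_mem hx hC) (H.inv_mem hx)

/-! #### Coordinates on `K` -/

/-- `K = H ∩ G` as a subgroup of `G` -/
def K : Subgroup G := Subgroup.closure gensK

lemma X_mem : X ∈ K := Subgroup.subset_closure (by simp [gensK])
lemma C_mem : C ∈ K := Subgroup.subset_closure (by simp [gensK])
lemma C'_mem : C' ∈ K := Subgroup.subset_closure (by simp [gensK])

/-- `X` in `K` -/
def Xk : K := ⟨X, X_mem⟩
/-- `C` in `K` -/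
def Ck : K := ⟨C, C_mem⟩
/-- `C'` in `K` -/
def Ck' : K := ⟨C', C'_mem⟩

/-- coordinates of an element of `K` -/
def Coord (k : K) (e f g : ℤ) : Prop := ∀ (A : Type) [CommGroup A] (Φ : K →* A),
  Φ k = Φ Xk ^ e * Φ Ck ^ f * Φ Ck' ^ g

lemma Coord.mul {k l : K} {e f g e' f' g' : ℤ} (h : Coord k e f g) (h' : Coord l e' f' g') :
    Coord (k * l) (e + e') (f + f') (g + g') := by
  intro A _ Φ
  rw [map_mul, h A Φ, h' A Φ, zpow_add, zpow_add, zpow_add, mul_mul_mul_comm (Φ Xk ^ e),
    mul_mul_mul_comm (Φ Xk ^ e * Φ Ck ^ f)]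

lemma Coord.inv {k : K} {e f g : ℤ} (h : Coord k e f g) : Coord k⁻¹ (-e) (-f) (-g) := by
  intro A _ Φ
  rw [map_inv, h A Φ, zpow_neg, zpow_neg, zpow_neg, mul_inv, mul_inv]

lemma Coord.one : Coord 1 0 0 0 := by
  intro A _ Φ
  simp

lemma Coord.zpow {k : K} {e f g : ℤ} (h : Coord k e f g) (n : ℤ) :
    Coord (k ^ n) (n * e) (n * f) (n * g) := by
  intro A _ Φ
  rw [map_zpow, h A Φ, mul_zpow, mul_zpow, ← zpow_mul, ← zpow_mul, ← zpow_mul, mul_comm e,
    mul_comm f, mul_comm g]

lemma exists_coord (k : K) : ∃ e f g : ℤ, Coord k e f g := by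
  obtain ⟨k, hk⟩ := k
  unfold K at hk
  induction hk using Subgroup.closure_induction with
  | mem u hu =>
    simp only [gensK, Set.mem_insert_iff, Set.mem_singleton_iff] at hu
    rcases hu with rfl | rfl | rfl
    · exact ⟨1, 0, 0, fun A _ Φ => by simp [Xk]⟩
    · exact ⟨0, 1, 0, fun A _ Φ => by simp [Ck]⟩
    · exact ⟨0, 0, 1, fun A _ Φ => by simp [Ck']⟩
  | one => exact ⟨0, 0, 0, Coord.one⟩
  | mul u v hu hv ihu ihv =>
    obtain ⟨e, f, g, h⟩ := ihu
    obtain ⟨e', f', g', h'⟩ := ihv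
    exact ⟨_, _, _, h.mul h'⟩
  | inv u hu ih =>
    obtain ⟨e, f, g, h⟩ := ih
    exact ⟨_, _, _, h.inv⟩

/-! #### The rank of `K` is at least three -/

lemma K_coords {k : G} (hk : k ∈ K) : (tau k).s = false ∧ (tau k).m.a = 0 ∧ (tau k).m.c = 0 ∧
    (tau k).m.d = 0 := by
  unfold K at hk
  induction hk using Subgroup.closure_induction with
  | mem u hu =>
    simp only [gensK, Set.mem_insert_iff, Set.mem_singleton_iff] at hu
    rcases hu with rfl | rfl | rfl
    · simp [X, tau_x]
    · simp [C, cm, Y, Z, Y', Z', tau_x, tau_y, tau_z]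
    · simp [C', cm, X, Y, Z, Y', Z', tau_x, tau_y, tau_z]
  | one => simp
  | mul u v hu hv ihu ihv =>
    obtain ⟨h1, h2, h3, h4⟩ := ihu
    obtain ⟨h1', h2', h3', h4'⟩ := ihv
    simp [h1, h2, h3, h4, h1', h2', h3', h4']
  | inv u hu ih =>
    obtain ⟨h1, h2, h3, h4⟩ := ih
    simp [h1, h2, h3, h4]

/-- the eight homomorphisms to the group of order two -/
def th (c : Fin 3 → Multiplicative (ZMod 2)) : K →* Multiplicative (ZMod 2) where
  toFun k := c 0 ^ (tau (k : G)).m.t * c 1 ^ (tau (k : G)).m.p *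
    c 2 ^ ((tau (k : G)).m.q - (tau (k : G)).m.p)
  map_one' := by simp
  map_mul' k l := by
    obtain ⟨h1, h2, h3, h4⟩ := K_coords k.2
    simp only [Subgroup.coe_mul, map_mul, WN.mul_m, h1, N.mul_t, N.mul_p, N.mul_q, h2, if_false,
      Bool.false_eq_true, zero_mul, add_zero]
    rw [zpow_add, zpow_add, add_sub_add_comm, zpow_add, mul_mul_mul_comm (c 0 ^ _),
      mul_mul_mul_comm (c 0 ^ _ * c 1 ^ _)]

lemma th_X (c : Fin 3 → Multiplicative (ZMod 2)) : th c Xk = c 0 := by
  simp [th, Xk, X, tau_x]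

lemma th_C (c : Fin 3 → Multiplicative (ZMod 2)) : th c Ck = c 1 := by
  simp [th, Ck, C, cm, X, Y, Z, Y', Z', tau_x, tau_y, tau_z]

lemma th_C' (c : Fin 3 → Multiplicative (ZMod 2)) : th c Ck' = c 2 := by
  simp [th, Ck', C', cm, X, Y, Z, Y', Z', tau_x, tau_y, tau_z]

lemma rk_K : ¬ rk K ≤ 2 := by
  apply not_rk_le_two th
  intro c d hcd
  have h0 : c 0 = d 0 := by rw [← th_X c, ← th_X d, hcd]
  have h1 : c 1 = d 1 := by rw [← th_C c, ← th_C d, hcd]
  have h2 : c 2 = d 2 := by rw [← th_C' c, ← th_C' d, hcd]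
  funext i
  fin_cases i
  · exact h0
  · exact h1
  · exact h2

/-! #### The key lemma -/

/-- the vector valued exponent homomorphism -/
def vv : G →* Multiplicative (Fin 4 → ℤ) where
  toFun g := Multiplicative.ofAdd ![(tau g).m.a, (tau g).n.a, (tau g).m.c, (tau g).m.d]
  map_one' := by
    apply Multiplicative.toAdd.injective
    funext i
    fin_cases i <;> simp
  map_mul' g h := by
    have hg : (tau (g : F3)).s = false := g.2
    apply Multiplicative.toAdd.injective
    funext i
    fin_cases i <;> simp [hg]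

lemma vv_X : Multiplicative.toAdd (vv X) = 0 := by
  funext i
  fin_cases i <;> simp [vv, X, tau_x]

lemma vv_Y : Multiplicative.toAdd (vv Y) = ![1, 0, 0, 0] := by
  funext i
  fin_cases i <;> simp [vv, Y, tau_y]

lemma vv_Y' : Multiplicative.toAdd (vv Y') = ![0, 1, 0, 0] := by
  funext i
  fin_cases i <;> simp [vv, Y', tau_x, tau_y]

lemma vv_Z : Multiplicative.toAdd (vv Z) = ![0, 0, 1, 0] := by
  funext i
  fin_cases i <;> simp [vv, Z, tau_z]

lemma vv_Z' : Multiplicative.toAdd (vv Z') = ![0, 0, 0, 1] := by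
  funext i
  fin_cases i <;> simp [vv, Z', tau_x, tau_z]

/-- the homomorphism to the Heisenberg type group attached to a basis and a functional -/
noncomputable def Psi {n : ℕ} (b : FreeGroupBasis (Fin n) G) (xi : G →* Multiplicative ℤ) :
    G →* HG :=
  b.lift fun i => ⟨Multiplicative.toAdd (xi (b i)), Multiplicative.toAdd (vv (b i)), 0⟩

lemma Psi_b {n : ℕ} (b : FreeGroupBasis (Fin n) G) (xi : G →* Multiplicative ℤ) (i : Fin n) :
    Psi b xi (b i) = ⟨Multiplicative.toAdd (xi (b i)), Multiplicative.toAdd (vv (b i)), 0⟩ := by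
  simp [Psi]

lemma Psi_a {n : ℕ} (b : FreeGroupBasis (Fin n) G) (xi : G →* Multiplicative ℤ) (g : G) :
    (Psi b xi g).a = Multiplicative.toAdd (xi g) := by
  have h : HG.aHom.comp (Psi b xi) = xi := by
    apply b.ext_hom
    intro i
    rw [MonoidHom.comp_apply, Psi_b]
    rfl
  exact congrArg Multiplicative.toAdd (DFunLike.congr_fun h g)

lemma Psi_v {n : ℕ} (b : FreeGroupBasis (Fin n) G) (xi : G →* Multiplicative ℤ) (g : G) :
    (Psi b xi g).v = Multiplicative.toAdd (vv g) := by
  have h : HG.vHom.comp (Psi b xi) = vv := by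
    apply b.ext_hom
    intro i
    rw [MonoidHom.comp_apply, Psi_b]
    rfl
  exact congrArg Multiplicative.toAdd (DFunLike.congr_fun h g)

lemma Psi_cm {n : ℕ} (b : FreeGroupBasis (Fin n) G) (xi : G →* Multiplicative ℤ) (g h : G) :
    Psi b xi (cm g h) = ⟨0, 0, Multiplicative.toAdd (xi g) • Multiplicative.toAdd (vv h) -
      Multiplicative.toAdd (xi h) • Multiplicative.toAdd (vv g)⟩ := by
  unfold cm
  rw [map_mul, map_mul, map_mul, map_inv, map_inv, HG.comm_eq, Psi_a, Psi_a, Psi_v, Psi_v]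

lemma hom_cm {Q A : Type} [Group Q] [CommGroup A] (f : Q →* A) (u v : Q) : f (cm u v) = 1 := by
  unfold cm
  rw [map_mul, map_mul, map_mul, map_inv, map_inv, mul_comm (f u)]
  simp

lemma hom_C {A : Type} [CommGroup A] (f : G →* A) : f C = 1 := by
  simp [C, hom_cm]

lemma hom_C' {A : Type} [CommGroup A] (f : G →* A) : f C' = 1 := by
  simp [C', hom_cm]

lemma Psi_C {n : ℕ} (b : FreeGroupBasis (Fin n) G) (xi : G →* Multiplicative ℤ) :
    (Psi b xi C).d = ![-Multiplicative.toAdd (xi Z) - Multiplicative.toAdd (xi Z'),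
      -Multiplicative.toAdd (xi Z), Multiplicative.toAdd (xi Y) + Multiplicative.toAdd (xi Y'),
      Multiplicative.toAdd (xi Y)] := by
  unfold C
  rw [map_mul, map_mul, Psi_cm, Psi_cm, Psi_cm, vv_Y, vv_Y', vv_Z, vv_Z']
  funext i
  fin_cases i <;> simp <;> ring

lemma Psi_C' {n : ℕ} (b : FreeGroupBasis (Fin n) G) (xi : G →* Multiplicative ℤ) :
    (Psi b xi C').d = ![-Multiplicative.toAdd (xi Z'),
      -Multiplicative.toAdd (xi Z) - Multiplicative.toAdd (xi Z'), Multiplicative.toAdd (xi Y'),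
      Multiplicative.toAdd (xi Y) + Multiplicative.toAdd (xi Y')] := by
  have h1 : ∀ u : G, vv (X * u * X⁻¹) = vv u := by
    intro u
    rw [map_mul, map_mul, map_inv, mul_comm (vv X)]
    simp
  have h2 : ∀ u : G, xi (X * u * X⁻¹) = xi u := by
    intro u
    rw [map_mul, map_mul, map_inv, mul_comm (xi X)]
    simp
  unfold C'
  rw [map_mul, map_mul, Psi_cm, Psi_cm, Psi_cm, h1, h1, h2, h2, vv_Y, vv_Y', vv_Z, vv_Z']
  funext i
  fin_cases i <;> simp <;> ring

lemma quad_ne {f g : ℤ} (h : ¬ (f = 0 ∧ g = 0)) : f * f + f * g + g * g ≠ 0 := by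
  intro h0
  apply h
  have h1 : (2 * f + g) * (2 * f + g) + 3 * (g * g) = 0 := by linarith [h0]; 
  have h2 : 0 ≤ (2 * f + g) * (2 * f + g) := mul_self_nonneg _
  have h3 : 0 ≤ g * g := mul_self_nonneg _
  have h4 : g * g = 0 := by linarith
  have h5 : g = 0 := mul_self_eq_zero.1 h4
  subst h5
  have h6 : f * f = 0 := by linarith
  exact ⟨mul_self_eq_zero.1 h6, rfl⟩

lemma solve2 {f g p q : ℤ} (h : ¬ (f = 0 ∧ g = 0)) (h1 : f * p + (f + g) * q = 0)
    (h2 : (f + g) * p + g * q = 0) : p = 0 ∧ q = 0 := by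
  have hq := quad_ne h
  constructor
  · have : (f * f + f * g + g * g) * p = 0 := by linear_combination (f + g) * h2 - g * h1
    exact (mul_eq_zero.1 this).resolve_left hq
  · have : (f * f + f * g + g * g) * q = 0 := by linear_combination (f + g) * h1 - f * h2
    exact (mul_eq_zero.1 this).resolve_left hq

lemma key_lemma {n : ℕ} (b : FreeGroupBasis (Fin n) G) (xi : G →* Multiplicative ℤ)
    (hX : xi X = 1) (i : ℕ) (hi : ∀ j : Fin n, (j : ℕ) < i → xi (b j) = 1) (k : K)
    (hk : (k : G) ∈ initial b i) {f g : ℤ} (hc : Coord k 0 f g) (hfg : ¬ (f = 0 ∧ g = 0)) :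
    ∀ u : G, xi u = 1 := by
  have hd' : ∀ w ∈ initial b i, (Psi b xi w).a = 0 ∧ (Psi b xi w).d = 0 := by
    intro w hw
    unfold initial at hw
    induction hw using Subgroup.closure_induction with
    | mem u hu =>
      obtain ⟨j, hj, rfl⟩ := hu
      rw [Psi_b]
      simp [hi j hj]
    | one => simp
    | mul u v _ _ hu hv => simp [hu.1, hu.2, hv.1, hv.2]
    | inv u _ hu => simp [hu.1, hu.2]
  have hd := hd' k hk
  have hK : ∀ u : K, (Psi b xi u).a = 0 ∧ (Psi b xi u).v = 0 := by
    intro u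
    obtain ⟨e', f', g', h'⟩ := exists_coord u
    rw [Psi_a, Psi_v]
    constructor
    · have := h' _ (xi.comp K.subtype)
      have h2 : xi (u : G) = xi X ^ e' * xi C ^ f' * xi C' ^ g' := this
      rw [h2, hX, hom_C, hom_C']
      simp
    · have := h' _ (vv.comp K.subtype)
      have h2 : vv (u : G) = vv X ^ e' * vv C ^ f' * vv C' ^ g' := this
      rw [h2, hom_C, hom_C']
      simp [vv_X]
  let D : K →* Multiplicative (Fin 4 → ℤ) :=
    { toFun := fun u => Multiplicative.ofAdd (Psi b xi u).d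
      map_one' := by simp
      map_mul' := by
        intro u v
        simp [(hK u).1] }
  have h1 := hc _ D
  have h2 : (Psi b xi k).d = f • (Psi b xi C).d + g • (Psi b xi C').d := by
    have := congrArg Multiplicative.toAdd h1
    simpa [D, Ck, Ck'] using this
  rw [hd.2, Psi_C, Psi_C'] at h2
  have c0 := congrFun h2 0
  have c1 := congrFun h2 1
  have c2 := congrFun h2 2
  have c3 := congrFun h2 3
  simp at c0 c1 c2 c3
  have hYY := solve2 (p := Multiplicative.toAdd (xi Y)) (q := Multiplicative.toAdd (xi Y')) hfg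
    (by linarith) (by linarith)
  have hZZ := solve2 (p := Multiplicative.toAdd (xi Z)) (q := Multiplicative.toAdd (xi Z')) hfg
    (by linarith) (by linarith)
  have hker : Subgroup.closure gensG ≤ xi.ker := by
    rw [Subgroup.closure_le]
    intro u hu
    simp only [gensG, Set.mem_insert_iff, Set.mem_singleton_iff] at hu
    change xi u = 1
    rcases hu with rfl | rfl | rfl | rfl | rfl
    · exact hX
    · exact toAdd_eq_zero.1 hYY.1
    · exact toAdd_eq_zero.1 hZZ.1
    · exact toAdd_eq_zero.1 hYY.2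
    · exact toAdd_eq_zero.1 hZZ.2
  intro u
  rw [closure_gensG] at hker
  exact hker (Subgroup.mem_top u)

lemma initial_mono {F : Type} [Group F] {n : ℕ} (b : FreeGroupBasis (Fin n) F) {i j : ℕ}
    (h : i ≤ j) : initial b i ≤ initial b j := by
  unfold initial
  apply Subgroup.closure_mono
  rintro g ⟨l, hl, rfl⟩
  exact ⟨l, by omega, rfl⟩

lemma rk_initial_zero {n : ℕ} (b : FreeGroupBasis (Fin n) G) : rk (K ⊓ initial b 0) ≤ 0 := by
  have h3 : K ⊓ initial b 0 = Subgroup.closure (Set.range (![] : Fin 0 → G)) := by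
    rw [Matrix.range_empty, Subgroup.closure_empty, eq_bot_iff]
    refine inf_le_right.trans ?_
    unfold initial
    rw [Subgroup.closure_le]
    rintro g ⟨j, hj, _⟩
    omega
  rw [h3]
  exact_mod_cast rk_closure_le 0 (![] : Fin 0 → G)

lemma xi_X {n : ℕ} (b : FreeGroupBasis (Fin n) G) (xi : G →* Multiplicative ℤ) (i : ℕ)
    (hi : ∀ j : Fin n, (j : ℕ) < i → xi (b j) = 1) (k : K)
    (hk : (k : G) ∈ initial b i) {e f g : ℤ} (hc : Coord k e f g) (he : e ≠ 0) : xi X = 1 := by
  have h1 : xi (k : G) = 1 := by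
    have : initial b i ≤ xi.ker := by
      unfold initial
      rw [Subgroup.closure_le]
      rintro _ ⟨j, hj, rfl⟩
      exact hi j hj
    exact this hk
  have h2 : xi (k : G) = xi X ^ e * xi C ^ f * xi C' ^ g := hc _ (xi.comp K.subtype)
  rw [h1, hom_C, hom_C'] at h2
  have h3 := congrArg Multiplicative.toAdd h2
  simp at h3
  rcases h3 with h3 | h3
  · exact absurd h3 he
  · exact h3

lemma not_echelon_K : ¬ IsEchelon K := by
  rintro ⟨n, b, hb⟩
  have hrk := rk_K
  match n, b, hb with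
  | 0, b, hb =>
    apply hrk
    have h0 := rk_initial_zero b
    rw [initial_top, inf_top_eq] at h0
    exact h0.trans (by norm_num)
  | 1, b, hb =>
    apply hrk
    have h1 := hb 1 le_rfl le_rfl
    rw [initial_top, inf_top_eq] at h1
    have h0 := rk_initial_zero b
    calc rk K ≤ rk (K ⊓ initial b (1 - 1)) + 1 := h1
      _ ≤ 0 + 1 := by gcongr
      _ ≤ 2 := by norm_num
  | m + 2, b, hb =>
    have h1 := hb (m + 2) (by omega) le_rfl
    have h2 := hb (m + 1) (by omega) (by omega)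
    rw [initial_top, inf_top_eq] at h1
    simp only [Nat.add_sub_cancel] at h2
    have h1' : rk K ≤ rk (K ⊓ initial b (m + 1)) + 1 := h1
    have hr1 : ¬ rk (K ⊓ initial b (m + 1)) ≤ 1 := by
      intro h
      apply hrk
      calc rk K ≤ rk (K ⊓ initial b (m + 1)) + 1 := h1'
        _ ≤ 1 + 1 := by gcongr
        _ = 2 := by norm_num
    have hr0 : ¬ rk (K ⊓ initial b m) ≤ 0 := by
      intro h
      apply hr1
      calc rk (K ⊓ initial b (m + 1)) ≤ rk (K ⊓ initial b m) + 1 := h2
        _ ≤ 0 + 1 := by gcongr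
        _ = 1 := by norm_num
    -- the last two basis functionals
    let last : Fin (m + 2) := ⟨m + 1, by omega⟩
    let prev : Fin (m + 2) := ⟨m, by omega⟩
    let xiL : G →* Multiplicative ℤ := b.lift (Pi.mulSingle last (Multiplicative.ofAdd 1))
    let xiP : G →* Multiplicative ℤ := b.lift (Pi.mulSingle prev (Multiplicative.ofAdd 1))
    have hL : ∀ j : Fin (m + 2), xiL (b j) =
        (Pi.mulSingle last (Multiplicative.ofAdd 1) : Fin (m + 2) → Multiplicative ℤ) j := by
      intro j; simp [xiL]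
    have hP : ∀ j : Fin (m + 2), xiP (b j) =
        (Pi.mulSingle prev (Multiplicative.ofAdd 1) : Fin (m + 2) → Multiplicative ℤ) j := by
      intro j; simp [xiP]
    have hLlast : xiL (b last) = Multiplicative.ofAdd 1 := by rw [hL]; simp
    have hLj : ∀ j : Fin (m + 2), (j : ℕ) < m + 1 → xiL (b j) = 1 := by
      intro j hj
      rw [hL, Pi.mulSingle_eq_of_ne]
      intro h
      rw [h] at hj
      simp [last] at hj
    have hPj : ∀ j : Fin (m + 2), (j : ℕ) < m → xiP (b j) = 1 := by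
      intro j hj
      rw [hP, Pi.mulSingle_eq_of_ne]
      intro h
      rw [h] at hj
      simp [prev] at hj
    have hPprev : xiP (b prev) = Multiplicative.ofAdd 1 := by rw [hP]; simp
    have hone : (Multiplicative.ofAdd (1 : ℤ)) ≠ 1 := by
      intro h
      have := congrArg Multiplicative.toAdd h
      simp at this
    obtain ⟨g₁, g₂, φ₁, φ₂, e11, e12, e21, e22⟩ := exists_two hr1
    obtain ⟨g₀, φ₀, e00⟩ := exists_one hr0
    obtain ⟨Φ₁, hΦ₁⟩ := Pool.Agent.R655.exists_extension b {j : Fin (m + 2) | (j : ℕ) < m + 1} K φ₁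
    obtain ⟨Φ₂, hΦ₂⟩ := Pool.Agent.R655.exists_extension b {j : Fin (m + 2) | (j : ℕ) < m + 1} K φ₂
    obtain ⟨Φ₀, hΦ₀⟩ := Pool.Agent.R655.exists_extension b {j : Fin (m + 2) | (j : ℕ) < m} K φ₀
    set k₁ : K := ⟨g₁, g₁.2.1⟩ with hk₁
    set k₂ : K := ⟨g₂, g₂.2.1⟩ with hk₂
    set k₀ : K := ⟨g₀, g₀.2.1⟩ with hk₀
    have E11 : Φ₁ k₁ = Multiplicative.ofAdd 1 := (hΦ₁ _ g₁.2).trans e11
    have E12 : Φ₁ k₂ = 1 := (hΦ₁ _ g₂.2).trans e12
    have E21 : Φ₂ k₁ = 1 := (hΦ₂ _ g₁.2).trans e21
    have E22 : Φ₂ k₂ = Multiplicative.ofAdd 1 := (hΦ₂ _ g₂.2).trans e22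
    have E00 : Φ₀ k₀ = Multiplicative.ofAdd 1 := (hΦ₀ _ g₀.2).trans e00
    have M1 : (k₁ : G) ∈ initial b (m + 1) := g₁.2.2
    have M2 : (k₂ : G) ∈ initial b (m + 1) := g₂.2.2
    have M0 : (k₀ : G) ∈ initial b m := g₀.2.2
    obtain ⟨a₁, f₁, c₁, C1⟩ := exists_coord k₁
    obtain ⟨a₂, f₂, c₂, C2⟩ := exists_coord k₂
    obtain ⟨a₀, f₀, c₀, C0⟩ := exists_coord k₀
    by_cases hA : a₁ = 0 ∧ a₂ = 0
    · obtain ⟨rfl, rfl⟩ := hA
      by_cases h0 : a₀ = 0
      · subst h0
        have hne : ¬ (f₀ = 0 ∧ c₀ = 0) := by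
          rintro ⟨rfl, rfl⟩
          have := C0 _ Φ₀
          rw [E00] at this
          simp at this
        by_cases hα : Multiplicative.toAdd (xiL X) = 0
        · have := key_lemma b xiL (toAdd_eq_zero.1 hα) m (fun j hj => hLj j (by omega)) k₀ M0 C0
            hne (b last)
          rw [hLlast] at this
          exact hone this
        · set α := Multiplicative.toAdd (xiL X) with hαdef
          set β := Multiplicative.toAdd (xiP X) with hβdef
          let xi : G →* Multiplicative ℤ := xiP ^ α * xiL ^ (-β)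
          have hxX : xi X = 1 := by
            apply Multiplicative.toAdd.injective
            simp only [xi, MonoidHom.mul_apply, MonoidHom.zpow_apply, toAdd_mul, toAdd_zpow,
              smul_eq_mul, toAdd_one, ← hαdef, ← hβdef]
            ring
          have := key_lemma b xi hxX m (fun j hj => by
            simp only [xi, MonoidHom.mul_apply, MonoidHom.zpow_apply, hPj j hj,
              hLj j (by omega), one_zpow, mul_one]) k₀ M0 C0 hne (b prev)
          simp only [xi, MonoidHom.mul_apply, MonoidHom.zpow_apply, hPprev,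
              hLj prev (by simp [prev]), one_zpow, mul_one] at this
          have h5 := congrArg Multiplicative.toAdd this
          simp at h5
          exact hα h5
      · have hX := xi_X b xiL (m + 1) hLj k₀ (initial_mono b (by omega) M0) C0 h0
        have hne : ¬ (f₁ = 0 ∧ c₁ = 0) := by
          rintro ⟨rfl, rfl⟩
          have := C1 _ Φ₁
          rw [E11] at this
          simp at this
        have := key_lemma b xiL hX (m + 1) hLj k₁ M1 C1 hne (b last)
        rw [hLlast] at this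
        exact hone this
    · have hX : xiL X = 1 := by
        by_cases h1 : a₁ = 0
        · exact xi_X b xiL (m + 1) hLj k₂ M2 C2 (fun h => hA ⟨h1, h⟩)
        · exact xi_X b xiL (m + 1) hLj k₁ M1 C1 h1
      have hc := (C1.zpow a₂).mul (C2.zpow (-a₁))
      rw [show a₂ * a₁ + -a₁ * a₂ = 0 by ring] at hc
      have hmem : ((k₁ ^ a₂ * k₂ ^ (-a₁) : K) : G) ∈ initial b (m + 1) := by
        rw [Subgroup.coe_mul, Subgroup.coe_zpow, Subgroup.coe_zpow]
        exact (initial b (m + 1)).mul_mem (Subgroup.zpow_mem _ M1 _) (Subgroup.zpow_mem _ M2 _)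
      have hne : ¬ (a₂ * f₁ + -a₁ * f₂ = 0 ∧ a₂ * c₁ + -a₁ * c₂ = 0) := by
        rintro ⟨u1, u2⟩
        rw [u1, u2] at hc
        apply hA
        have v1 := hc _ Φ₁
        have v2 := hc _ Φ₂
        rw [map_mul, map_zpow, map_zpow, E11, E12] at v1
        rw [map_mul, map_zpow, map_zpow, E21, E22] at v2
        have w1 := congrArg Multiplicative.toAdd v1
        have w2 := congrArg Multiplicative.toAdd v2
        simp at w1 w2
        exact ⟨w2, w1⟩
      have := key_lemma b xiL hX (m + 1) hLj _ hmem hc hne (b last)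
      rw [hLlast] at this
      exact hone this

/-! #### `H` is echelon -/

/-- retraction killing `z` -/
def retr : F3 →* F3 := FreeGroup.lift ![x, y, 1]

lemma retr_x : retr x = x := by
  have : retr x = ![x, y, 1] 0 := by unfold retr x; exact FreeGroup.lift_apply_of
  rw [this]; rfl
lemma retr_y : retr y = y := by
  have : retr y = ![x, y, 1] 1 := by unfold retr y; exact FreeGroup.lift_apply_of
  rw [this]; rfl
lemma retr_z : retr z = 1 := by
  have : retr z = ![x, y, 1] 2 := by unfold retr z; exact FreeGroup.lift_apply_of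
  rw [this]; rfl

lemma retr_C : retr (C : F3) = 1 := by
  simp only [C, cm, Subgroup.coe_mul, Subgroup.coe_inv, Y, Z, Y', Z', map_mul, map_inv, retr_x,
    retr_y, retr_z]
  group

lemma x_ne : x ≠ 1 := FreeGroup.of_ne_one 0

lemma x_mem_H : x ∈ H := Subgroup.subset_closure ⟨0, rfl⟩

lemma retr_H {g : F3} (hg : g ∈ H) : retr g ∈ Subgroup.zpowers x := by
  have : H ≤ (Subgroup.zpowers x).comap retr := by
    unfold H
    rw [Subgroup.closure_le]
    rintro _ ⟨j, rfl⟩
    fin_cases j
    · change retr x ∈ Subgroup.zpowers x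
      rw [retr_x]; exact Subgroup.mem_zpowers _
    · change retr (C : F3) ∈ Subgroup.zpowers x
      rw [retr_C]; exact Subgroup.one_mem _
  exact this hg

/-- the standard basis -/
noncomputable def stdb : FreeGroupBasis (Fin 3) F3 := FreeGroupBasis.ofFreeGroup (Fin 3)

lemma stdb_0 : stdb 0 = x := FreeGroupBasis.ofFreeGroup_apply 0
lemma stdb_1 : stdb 1 = y := FreeGroupBasis.ofFreeGroup_apply 1

lemma retr_init {g : F3} (hg : g ∈ initial stdb 2) : retr g = g := by
  have : initial stdb 2 ≤ retr.eqLocus (MonoidHom.id F3) := by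
    unfold initial
    rw [Subgroup.closure_le]
    rintro _ ⟨j, hj, rfl⟩
    have hj2 : j = 0 ∨ j = 1 := by
      rcases j with ⟨j, hj3⟩
      simp only at hj
      interval_cases j
      · left; rfl
      · right; rfl
    rcases hj2 with rfl | rfl
    · change retr (stdb 0) = stdb 0
      rw [stdb_0, retr_x]
    · change retr (stdb 1) = stdb 1
      rw [stdb_1, retr_y]
  exact this hg

lemma x_mem_init {i : ℕ} (hi : 1 ≤ i) : x ∈ initial stdb i :=
  Subgroup.subset_closure ⟨0, by simp; omega, stdb_0⟩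

lemma H_inf {i : ℕ} (h1 : 1 ≤ i) (h2 : i ≤ 2) :
    H ⊓ initial stdb i = Subgroup.closure (Set.range ![x]) := by
  apply le_antisymm
  · rintro g ⟨hg1, hg2⟩
    have h3 := retr_H hg1
    rw [retr_init (initial_mono stdb h2 hg2)] at h3
    have h4 : Subgroup.zpowers x ≤ Subgroup.closure (Set.range ![x]) := by
      rw [Subgroup.zpowers_le]
      exact Subgroup.subset_closure ⟨0, rfl⟩
    exact h4 h3
  · rw [Subgroup.closure_le]
    rintro _ ⟨j, rfl⟩
    have : j = 0 := Subsingleton.elim _ _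
    rw [this]
    exact ⟨x_mem_H, x_mem_init h1⟩

lemma echelon_H : IsEchelon H := by
  refine ⟨3, stdb, ?_⟩
  intro i hi hi2
  interval_cases i
  · rw [H_inf le_rfl (by norm_num)]
    refine (rk_closure_le 1 _).trans ?_
    simp
  · rw [H_inf (by norm_num) le_rfl]
    refine (rk_closure_le 1 _).trans ?_
    simp
  · rw [initial_top, inf_top_eq]
    have h1 : rk H ≤ 2 := by
      unfold H
      exact_mod_cast rk_closure_le 2 _
    have h2 : 1 ≤ rk (H ⊓ initial stdb (3 - 1)) :=
      rk_ne_zero (g := x) ⟨x_mem_H, x_mem_init (by norm_num)⟩ x_ne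
    calc rk H ≤ 2 := h1
      _ = 1 + 1 := by norm_num
      _ ≤ _ := by gcongr

lemma G_fg : G.FG := by
  rw [Subgroup.fg_iff]
  refine ⟨G.subtype '' gensG, ?_, ?_⟩
  · rw [← MonoidHom.map_closure, closure_gensG, ← MonoidHom.range_eq_map, Subgroup.range_subtype]
  · apply Set.Finite.image
    unfold gensG
    exact ((((Set.finite_singleton _).insert _).insert _).insert _).insert _

/-- **The answer to Q1 of MP_3ccc78_al is negative**: there are an echelon subgroup `H` and a
finitely generated subgroup `G` of a free group of finite rank such that `H ∩ G` is not an echelon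
subgroup of `G`. -/
theorem result : ∃ (n : ℕ) (H G : Subgroup (FreeGroup (Fin n))),
    IsEchelon H ∧ G.FG ∧ ¬ IsEchelon (H.subgroupOf G) := by
  refine ⟨3, H, G, echelon_H, G_fg, ?_⟩
  rw [K_eq]
  exact not_echelon_K

end Pool.Agent.Results.MP_3ccc78_al.EchelonMeet
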